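import Pool.Agent.H.MP_00e59b_an.A

set_option autoImplicit false

open MeasureTheory

namespace Pool.Agent.Results.MP_00e59b_an.No

/-- `X` has Nagata dimension at most `d`. -/
def Nag {E : Type} [PseudoMetricSpace E] (X : Set E) (d : ℕ) : Prop :=
  ∃ c > (0 : ℝ), ∀ s > (0 : ℝ), ∃ C : Set (Set E), ⋃₀ C = X ∧
    (∀ U ∈ C, ∀ x ∈ U, ∀ y ∈ U, dist x y ≤ c * s) ∧
    ∀ A ⊆ X, (∀ x ∈ A, ∀ y ∈ A, dist x y ≤ s) → {U ∈ C | (U ∩ A).Nonempty}.encard ≤ d + 1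

theorem result (n : ℕ) (hn : 3 ≤ n) :
    ∃ (Ω : Set (EuclideanSpace ℝ (Fin n)))
      (f : EuclideanSpace ℝ (Fin n) → EuclideanSpace ℝ (Fin n)) (K : ℝ),
      IsOpen Ω ∧ IsConnected Ω ∧ LocallyLipschitzOn Ω f ∧ 1 ≤ K ∧
      (∀ᵐ x, x ∈ Ω → DifferentiableAt ℝ f x ∧ ‖fderiv ℝ f x‖ ^ n ≤ K * (fderiv ℝ f x).det) ∧
      ∀ d ≤ n - 2, ¬ Nag (f '' {x ∈ Ω | ¬ IsLocalHomeomorphOn f {x}}) d :=
  Pool.Agent.H.MP_00e59b_an.main n hn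

end Pool.Agent.Results.MP_00e59b_an.No
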